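import Mathlib

/-!
# Compactly supported symplectomorphisms of `ℝ^{2n}`: definitions

The definitions are those of the hand-in `MP_ec5dc5_gt.CountableComponents` of helper167.
-/

set_option autoImplicit false

open Set Filter Topology Metric Function
open scoped ContDiff NNReal

noncomputable section

namespace Pool.Agent.X277.Sy

/-- `ℝ^{2n}`; the coordinates of `z` are `x_i = z (i, 0)` and `y_i = z (i, 1)`. -/
abbrev E (n : ℕ) : Type := EuclideanSpace ℝ (Fin n × Fin 2)

/-- The standard symplectic form `∑ dx_i ∧ dy_i`. -/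
def omega {n : ℕ} (u v : E n) : ℝ :=
  ∑ i : Fin n, (u (i, 0) * v (i, 1) - u (i, 1) * v (i, 0))

/-- `φ` is a symplectomorphism of `ℝ^{2n}`: a diffeomorphism preserving the standard form. -/
structure IsSymplectomorphism {n : ℕ} (φ : E n → E n) : Prop where
  smooth : ContDiff ℝ ∞ φ
  inverse : ∃ χ : E n → E n, ContDiff ℝ ∞ χ ∧ LeftInverse χ φ ∧ RightInverse χ φ
  symplectic : ∀ x u v : E n, omega (fderiv ℝ φ x u) (fderiv ℝ φ x v) = omega u v

/-- `φ` is the identity outside `K`. -/
def SupportedIn {n : ℕ} (K : Set (E n)) (φ : E n → E n) : Prop := ∀ x, x ∉ K → φ x = x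

/-- The symplectomorphisms of `ℝ^{2n}` supported in `K`. -/
@[ext] structure SympIn (n : ℕ) (K : Set (E n)) where
  /-- the underlying map -/
  map : E n → E n
  isSymp : IsSymplectomorphism map
  supported : SupportedIn K map

/-- The derivative of order `j` of a symplectomorphism, as a continuous map. -/
def jet {n : ℕ} {K : Set (E n)} (j : ℕ) (φ : SympIn n K) :
    C(E n, ContinuousMultilinearMap ℝ (fun _ : Fin j => E n) (E n)) :=
  ⟨iteratedFDeriv ℝ j φ.map, φ.isSymp.smooth.continuous_iteratedFDeriv (by exact_mod_cast le_top)⟩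

/-- The `C^∞` topology: uniform convergence on compact sets of the derivatives of all orders, that is,
the coarsest topology for which all the maps `jet j` are continuous, where the spaces of continuous
maps have the compact-open topology. -/
instance (n : ℕ) (K : Set (E n)) : TopologicalSpace (SympIn n K) :=
  ⨅ j : ℕ, TopologicalSpace.induced (jet j) ContinuousMap.compactOpen

/-- The group `G` of the compactly supported symplectomorphisms of `ℝ^{2n}`. -/
@[ext] structure SympCt (n : ℕ) where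
  /-- the underlying map -/
  map : E n → E n
  isSymp : IsSymplectomorphism map
  compactSupport : ∃ K : Set (E n), IsCompact K ∧ SupportedIn K map

/-- The inclusion of the subgroup of the symplectomorphisms supported in the compact set `K`. -/
def incl {n : ℕ} (K : {K : Set (E n) // IsCompact K}) (φ : SympIn n K.1) : SympCt n :=
  ⟨φ.map, φ.isSymp, K.1, K.2, φ.supported⟩

/-- The direct limit topology: the finest topology for which all the inclusions are continuous. -/
instance (n : ℕ) : TopologicalSpace (SympCt n) :=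
  ⨆ K : {K : Set (E n) // IsCompact K}, TopologicalSpace.coinduced (incl K) inferInstance

/-- `Φ` is a smooth path of symplectomorphisms supported in `K`. -/
structure IsIsotopy {n : ℕ} (K : Set (E n)) (Φ : ℝ → E n → E n) : Prop where
  smooth : ContDiff ℝ ∞ (fun p : ℝ × E n => Φ p.1 p.2)
  symp : ∀ t, IsSymplectomorphism (Φ t)
  supp : ∀ t, SupportedIn K (Φ t)

/-- `φ` and `ψ` are joined by a smooth path of symplectomorphisms supported in the set `K`. -/
def IsotopicIn {n : ℕ} (K : Set (E n)) (φ ψ : SympCt n) : Prop :=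
  ∃ Φ : ℝ → E n → E n, IsIsotopy K Φ ∧ Φ 0 = φ.map ∧ Φ 1 = ψ.map

/-- `φ` and `ψ` are joined by a smooth path of symplectomorphisms, all supported in one compact set. -/
def Isotopic {n : ℕ} (φ ψ : SympCt n) : Prop :=
  ∃ K : Set (E n), IsCompact K ∧ IsotopicIn K φ ψ

/-! ### The group -/

/-- The composition of two symplectomorphisms is a symplectomorphism. -/
theorem IsSymplectomorphism.comp {n : ℕ} {φ ψ : E n → E n} (hφ : IsSymplectomorphism φ)
    (hψ : IsSymplectomorphism ψ) : IsSymplectomorphism (φ ∘ ψ) := by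
  obtain ⟨χ, h1, h2, h3⟩ := hφ.inverse
  obtain ⟨χ', h1', h2', h3'⟩ := hψ.inverse
  refine ⟨hφ.smooth.comp hψ.smooth, ⟨χ' ∘ χ, h1'.comp h1, h2.comp h2', h3.comp h3'⟩,
    fun x u v => ?_⟩
  have hd : HasFDerivAt (φ ∘ ψ) ((fderiv ℝ φ (ψ x)).comp (fderiv ℝ ψ x)) x :=
    HasFDerivAt.comp x (hφ.smooth.differentiable (by simp) _).hasFDerivAt
      (hψ.smooth.differentiable (by simp) _).hasFDerivAt
  rw [hd.fderiv]
  simp only [ContinuousLinearMap.comp_apply]
  rw [hφ.symplectic, hψ.symplectic]

theorem isSymp_id {n : ℕ} : IsSymplectomorphism (id : E n → E n) := by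
  refine ⟨contDiff_id, ⟨id, contDiff_id, fun _ => rfl, fun _ => rfl⟩, fun x u v => ?_⟩
  rw [fderiv_id]
  rfl

/-- The inverse of a symplectomorphism is a symplectomorphism. -/
theorem IsSymplectomorphism.of_inverse {n : ℕ} {φ χ : E n → E n} (hφ : IsSymplectomorphism φ)
    (hχ : ContDiff ℝ ∞ χ) (h1 : LeftInverse χ φ) (h2 : RightInverse χ φ) :
    IsSymplectomorphism χ := by
  refine ⟨hχ, ⟨φ, hφ.smooth, h2, h1⟩, fun x u v => ?_⟩
  have hd : HasFDerivAt (φ ∘ χ) ((fderiv ℝ φ (χ x)).comp (fderiv ℝ χ x)) x :=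
    HasFDerivAt.comp x (hφ.smooth.differentiable (by simp) _).hasFDerivAt
      (hχ.differentiable (by simp) _).hasFDerivAt
  have he : φ ∘ χ = id := funext h2
  rw [he] at hd
  have h3 := hd.unique (hasFDerivAt_id x)
  have h4 := hφ.symplectic (χ x) (fderiv ℝ χ x u) (fderiv ℝ χ x v)
  have h5 : ∀ w, fderiv ℝ φ (χ x) (fderiv ℝ χ x w) = w := fun w => DFunLike.congr_fun h3 w
  rw [h5, h5] at h4
  exact h4.symm

theorem exists_inv {n : ℕ} (φ : SympCt n) : ∃ χ : SympCt n, LeftInverse χ.map φ.map ∧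
    RightInverse χ.map φ.map := by
  obtain ⟨χ, h1, h2, h3⟩ := φ.isSymp.inverse
  obtain ⟨K, hK, hφ⟩ := φ.compactSupport
  refine ⟨⟨χ, φ.isSymp.of_inverse h1 h2 h3, K, hK, fun x hx => ?_⟩, h2, h3⟩
  have := h2 x
  rwa [hφ x hx] at this

/-- The group structure: composition of maps. -/
instance (n : ℕ) : Group (SympCt n) where
  mul φ ψ := ⟨φ.map ∘ ψ.map, φ.isSymp.comp ψ.isSymp, by
    obtain ⟨K, hK, h⟩ := φ.compactSupport
    obtain ⟨L, hL, h'⟩ := ψ.compactSupport
    refine ⟨K ∪ L, hK.union hL, fun x hx => ?_⟩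
    rw [mem_union, not_or] at hx
    show φ.map (ψ.map x) = x
    rw [h' x hx.2, h x hx.1]⟩
  one := ⟨id, isSymp_id, ∅, isCompact_empty, fun _ _ => rfl⟩
  inv φ := (exists_inv φ).choose
  mul_assoc _ _ _ := rfl
  one_mul _ := rfl
  mul_one _ := rfl
  inv_mul_cancel φ := SympCt.ext (funext (exists_inv φ).choose_spec.1)

@[simp] theorem mul_map {n : ℕ} (φ ψ : SympCt n) (x : E n) : (φ * ψ).map x = φ.map (ψ.map x) := rfl

@[simp] theorem one_map {n : ℕ} (x : E n) : (1 : SympCt n).map x = x := rfl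

theorem inv_map_map {n : ℕ} (φ : SympCt n) (x : E n) : φ⁻¹.map (φ.map x) = x :=
  (exists_inv φ).choose_spec.1 x

theorem map_inv_map {n : ℕ} (φ : SympCt n) (x : E n) : φ.map (φ⁻¹.map x) = x :=
  (exists_inv φ).choose_spec.2 x

/-! ### Isotopies are paths -/

/-- A smooth path of symplectomorphisms supported in `K` is continuous for the `C^∞` topology. -/
theorem continuous_path {n : ℕ} {K : Set (E n)} (Φ : ℝ → E n → E n) (hΦ : IsIsotopy K Φ) :
    Continuous (fun t => (⟨Φ t, hΦ.symp t, hΦ.supp t⟩ : SympIn n K)) := by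
  have h := hΦ.smooth
  rw [continuous_iInf_rng]
  intro j
  rw [continuous_induced_rng]
  refine ContinuousMap.continuous_of_continuous_uncurry _ ?_
  let F : ℝ × E n → E n := fun p => Φ p.1 p.2
  let ι : E n →L[ℝ] ℝ × E n := ContinuousLinearMap.inr ℝ ℝ (E n)
  have key : ∀ (t : ℝ) (x : E n), iteratedFDeriv ℝ j (Φ t) x =
      ContinuousMultilinearMap.compContinuousLinearMapL (fun _ : Fin j => ι)
        (iteratedFDeriv ℝ j F (t, x)) := by
    intro t x
    have h1 : Φ t = (fun p => F ((t, 0) + p)) ∘ ι := by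
      funext x
      show Φ t x = F ((t, 0) + (0, x))
      simp [F]
    have h2 : ContDiff ℝ ∞ (fun p => F ((t, 0) + p)) := h.comp (contDiff_const.add contDiff_id)
    rw [h1, ι.iteratedFDeriv_comp_right h2 x (i := j) (by exact_mod_cast le_top),
      iteratedFDeriv_comp_add_left]
    have h3 : ((t, 0) + ι x : ℝ × E n) = (t, x) := by
      show ((t, 0) + (0, x) : ℝ × E n) = (t, x)
      simp
    rw [h3]
    rfl
  have h4 : (Function.uncurry fun (t : ℝ) (x : E n) =>
      (jet j (⟨Φ t, hΦ.symp t, hΦ.supp t⟩ : SympIn n K)) x) = fun p : ℝ × E n =>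
      ContinuousMultilinearMap.compContinuousLinearMapL (fun _ : Fin j => ι)
        (iteratedFDeriv ℝ j F p) := by
    funext p
    exact key p.1 p.2
  show Continuous (Function.uncurry fun (t : ℝ) (x : E n) =>
      (jet j (⟨Φ t, hΦ.symp t, hΦ.supp t⟩ : SympIn n K)) x)
  rw [h4]
  exact (ContinuousLinearMap.continuous _).comp
    (h.continuous_iteratedFDeriv (by exact_mod_cast le_top))

/-- A smooth isotopy is a path in the direct limit. -/
theorem Isotopic.joined {n : ℕ} {φ ψ : SympCt n} (h : Isotopic φ ψ) : Joined φ ψ := by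
  obtain ⟨K, hK, Φ, h1, h3, h4⟩ := h
  have hc := continuous_path Φ h1
  have hi : Continuous (incl (n := n) ⟨K, hK⟩) := by
    rw [continuous_iff_coinduced_le]
    exact le_iSup (fun K : {K : Set (E n) // IsCompact K} =>
      TopologicalSpace.coinduced (incl K) inferInstance) ⟨K, hK⟩
  refine ⟨⟨⟨fun t => incl ⟨K, hK⟩ ⟨Φ t, h1.symp t, h1.supp t⟩,
    hi.comp (hc.comp continuous_subtype_val)⟩, ?_, ?_⟩⟩
  · apply SympCt.ext
    show Φ ((0 : unitInterval) : ℝ) = φ.map
    rw [← h3]
    rfl
  · apply SympCt.ext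
    show Φ ((1 : unitInterval) : ℝ) = ψ.map
    rw [← h4]
    rfl

end Pool.Agent.X277.Sy
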