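import Pool.Agent.X277.Sy.Open

/-!
# Smooth spheroids in the group of compactly supported symplectomorphisms
-/

set_option autoImplicit false

open Set Filter Topology Metric Function
open scoped ContDiff NNReal

noncomputable section

namespace Pool.Agent.X277.Sy

variable {n : ℕ}

section Family

variable {P : Type} [NormedAddCommGroup P] [NormedSpace ℝ P]

/-- `θ` is a smooth family. -/
def IsSmoothFamily (θ : P → SympCt n) : Prop :=
  ContDiff ℝ ∞ (fun p : P × E n => (θ p.1).map p.2)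

theorem IsSmoothFamily.mul {θ η : P → SympCt n} (h : IsSmoothFamily θ) (h' : IsSmoothFamily η) :
    IsSmoothFamily (fun s => θ s * η s) :=
  ContDiff.comp h (contDiff_fst.prodMk h')

theorem IsSmoothFamily.comp {Q : Type} [NormedAddCommGroup Q] [NormedSpace ℝ Q]
    {θ : P → SympCt n} (h : IsSmoothFamily θ) {f : Q → P} (hf : ContDiff ℝ ∞ f) :
    IsSmoothFamily (fun q => θ (f q)) :=
  ContDiff.comp h ((hf.comp contDiff_fst).prodMk contDiff_snd)

theorem isSmoothFamily_const (φ : SympCt n) : IsSmoothFamily (fun _ : P => φ) :=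
  φ.isSymp.smooth.comp contDiff_snd

theorem fderiv_inj (φ : SympCt n) (x : E n) : Injective (fderiv ℝ φ.map x) :=
  (injective_iff_map_eq_zero _).2 fun _ hu => symp_inj (φ.isSymp.symplectic x) hu

theorem IsSmoothFamily.inv [CompleteSpace P] {θ : P → SympCt n} (h : IsSmoothFamily θ) :
    IsSmoothFamily (fun s => (θ s)⁻¹) := by
  refine joint_inverse h (fun s x => (LinearEquiv.ofInjectiveEndo
    (fderiv ℝ (θ s).map x : E n →ₗ[ℝ] E n) (fderiv_inj (θ s) x)).toContinuousLinearEquiv) ?_ ?_ ?_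
  · intro t x
    refine (hasFDerivAt_map (θ t) x).congr_fderiv ?_
    ext v
    rfl
  · intro t x
    exact inv_map_map (θ t) x
  · intro t x
    exact map_inv_map (θ t) x

/-- the derivatives as a continuous map -/
theorem IsSmoothFamily.continuous_fderiv {θ : P → SympCt n} (h : IsSmoothFamily θ) :
    Continuous (fun p : P × E n => fderiv ℝ (θ p.1).map p.2) := by
  have h1 : Continuous (fderiv ℝ (fun p : P × E n => (θ p.1).map p.2)) :=
    ContDiff.continuous_fderiv h (by simp)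
  have h2 : (fun p : P × E n => fderiv ℝ (θ p.1).map p.2) = fun p =>
      (fderiv ℝ (fun p : P × E n => (θ p.1).map p.2) p).comp
        (ContinuousLinearMap.inr ℝ P (E n)) := by
    funext ⟨s, x⟩
    have h3 : HasFDerivAt (fun p : P × E n => (θ p.1).map p.2)
        (fderiv ℝ (fun p : P × E n => (θ p.1).map p.2) (s, x)) (s, x) :=
      (ContDiff.differentiable h (by simp) (s, x)).hasFDerivAt
    have h4 : HasFDerivAt (fun x => (θ s).map x)
        ((fderiv ℝ (fun p : P × E n => (θ p.1).map p.2) (s, x)).comp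
          (ContinuousLinearMap.inr ℝ P (E n))) x :=
      HasFDerivAt.comp (f := fun x => (s, x)) x h3 (hasFDerivAt_prodMk_right s x)
    exact h4.fderiv
  rw [h2]
  exact h1.clm_comp continuous_const

end Family

/-- the quotient of two maps with never antiparallel differentials -/
theorem noNeg_quot (φ ψ : SympCt n)
    (h : ∀ (x v : E n) (m : ℝ), m < 0 → fderiv ℝ ψ.map x v = m • fderiv ℝ φ.map x v → v = 0) :
    ∀ x, NoNeg (fderiv ℝ (ψ * φ⁻¹).map x) := by
  intro y m w hm hw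
  obtain ⟨x, rfl⟩ : ∃ x, φ.map x = y := ⟨φ⁻¹.map y, map_inv_map φ y⟩
  have d1 : HasFDerivAt ((ψ * φ⁻¹).map ∘ φ.map)
      ((fderiv ℝ (ψ * φ⁻¹).map (φ.map x)).comp (fderiv ℝ φ.map x)) x :=
    (hasFDerivAt_map _ _).comp x (hasFDerivAt_map _ _)
  have e1 : (ψ * φ⁻¹).map ∘ φ.map = ψ.map := by
    funext z
    show ψ.map (φ⁻¹.map (φ.map z)) = ψ.map z
    rw [inv_map_map]
  rw [e1] at d1
  have d2 := d1.unique (hasFDerivAt_map ψ x)
  obtain ⟨v, rfl⟩ : ∃ v, fderiv ℝ φ.map x v = w := by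
    have d3 : HasFDerivAt (φ.map ∘ φ⁻¹.map)
        ((fderiv ℝ φ.map x).comp (fderiv ℝ φ⁻¹.map (φ.map x))) (φ.map x) := by
      refine HasFDerivAt.comp (φ.map x) ?_ (hasFDerivAt_map _ _)
      rw [inv_map_map]
      exact hasFDerivAt_map _ _
    have e2 : φ.map ∘ φ⁻¹.map = id := funext fun z => map_inv_map φ z
    rw [e2] at d3
    exact ⟨fderiv ℝ φ⁻¹.map (φ.map x) w, DFunLike.congr_fun (d3.unique (hasFDerivAt_id _)) w⟩
  have h3 : fderiv ℝ ψ.map x v = m • fderiv ℝ φ.map x v := by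
    rw [← d2]
    exact hw
  rw [h x v m hm h3, map_zero]

theorem never_anti {φ ψ : SympCt n} (h : ∀ x v : E n, v ≠ 0 →
    ‖fderiv ℝ ψ.map x v - fderiv ℝ φ.map x v‖ < ‖fderiv ℝ φ.map x v‖) :
    ∀ (x v : E n) (m : ℝ), m < 0 → fderiv ℝ ψ.map x v = m • fderiv ℝ φ.map x v → v = 0 := by
  intro x v m hm hv
  by_contra hv0
  have h2 := h x v hv0
  rw [hv] at h2
  have h3 : m • fderiv ℝ φ.map x v - fderiv ℝ φ.map x v = (m - 1) • fderiv ℝ φ.map x v := by
    rw [sub_smul, one_smul]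
  rw [h3, norm_smul, Real.norm_eq_abs, abs_of_neg (by linarith)] at h2
  have h4 := norm_nonneg (fderiv ℝ φ.map x v)
  nlinarith

/-! ### Spheroids -/

/-- A smooth `k`-spheroid in `G`: a smooth map from `ℝ^k` to `G`, equal to `1` at infinity, with
supports in one ball. -/
structure Spheroid (k n : ℕ) where
  /-- the family -/
  fam : EuclideanSpace ℝ (Fin k) → SympCt n
  smooth : IsSmoothFamily fam
  bounded : ∃ r : ℝ, (∀ s, r ≤ ‖s‖ → fam s = 1) ∧ ∀ s, SupportedIn (closedBall 0 r) (fam s).map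

/-- A homotopy of spheroids, with supports in the set `K`. -/
def HomotopicIn {k n : ℕ} (K : Set (E n)) (f g : Spheroid k n) : Prop :=
  ∃ F : ℝ × EuclideanSpace ℝ (Fin k) → SympCt n, IsSmoothFamily F ∧ (∀ s, F (0, s) = f.fam s) ∧
    (∀ s, F (1, s) = g.fam s) ∧ (∃ r : ℝ, ∀ t s, r ≤ ‖s‖ → F (t, s) = 1) ∧
    ∀ q, SupportedIn K (F q).map

/-- The spheroids `f` and `g` are homotopic. -/
def Homotopic {k n : ℕ} (f g : Spheroid k n) : Prop := ∃ K : Set (E n), IsCompact K ∧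
  HomotopicIn K f g

/-- The spheroids `f` and `g` are homotopic with supports in one compact subset of `U`. -/
def HomotopicWithin {k n : ℕ} (U : Set (E n)) (f g : Spheroid k n) : Prop :=
  ∃ K : Set (E n), IsCompact K ∧ K ⊆ U ∧ HomotopicIn K f g

/-- The spheroid has supports in one compact subset of `U`. -/
def Spheroid.Within {k n : ℕ} (U : Set (E n)) (f : Spheroid k n) : Prop :=
  ∃ K : Set (E n), IsCompact K ∧ K ⊆ U ∧ ∀ s, SupportedIn K (f.fam s).map

variable {k : ℕ}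

theorem HomotopicIn.mono {K L : Set (E n)} (h : K ⊆ L) {f g : Spheroid k n}
    (hi : HomotopicIn K f g) : HomotopicIn L f g := by
  obtain ⟨F, h1, h2, h3, h4, h5⟩ := hi
  exact ⟨F, h1, h2, h3, h4, fun q x hx => h5 q x fun h' => hx (h h')⟩

theorem HomotopicIn.symm {K : Set (E n)} {f g : Spheroid k n} (h : HomotopicIn K f g) :
    HomotopicIn K g f := by
  obtain ⟨F, h1, h2, h3, ⟨r, h4⟩, h5⟩ := h
  refine ⟨fun q => F (1 - q.1, q.2), h1.comp ((contDiff_const.sub contDiff_fst).prodMk contDiff_snd),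
    fun s => ?_, fun s => ?_, ⟨r, fun t s hs => h4 _ s hs⟩, fun q => h5 _⟩
  · show F (1 - 0, s) = g.fam s
    rw [sub_zero, h3]
  · show F (1 - 1, s) = f.fam s
    rw [sub_self, h2]

theorem supp_mul {K : Set (E n)} {φ ψ : SympCt n} (h : SupportedIn K φ.map)
    (h' : SupportedIn K ψ.map) : SupportedIn K (φ * ψ).map := by
  intro x hx
  show φ.map (ψ.map x) = x
  rw [h' x hx, h x hx]

theorem HomotopicIn.trans {K : Set (E n)} {f g h : Spheroid k n} (h1 : HomotopicIn K f g)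
    (h2 : HomotopicIn K g h) : HomotopicIn K f h := by
  obtain ⟨F, a1, a2, a3, ⟨r, a4⟩, a5⟩ := h1
  obtain ⟨G, b1, b2, b3, ⟨r', b4⟩, b5⟩ := h2
  refine ⟨fun q => F q * (F (1, q.2))⁻¹ * G q, (a1.mul (a1.inv.comp
    (contDiff_const.prodMk contDiff_snd))).mul b1, fun s => ?_, fun s => ?_,
    ⟨max r r', fun t s hs => ?_⟩, fun q => ?_⟩
  · show F (0, s) * (F (1, s))⁻¹ * G (0, s) = f.fam s
    rw [a2, a3, b2, inv_mul_cancel_right]
  · show F (1, s) * (F (1, s))⁻¹ * G (1, s) = h.fam s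
    rw [mul_inv_cancel, one_mul, b3]
  · show F (t, s) * (F (1, s))⁻¹ * G (t, s) = 1
    rw [a4 t s (le_trans (le_max_left _ _) hs), a4 1 s (le_trans (le_max_left _ _) hs),
      b4 t s (le_trans (le_max_right _ _) hs)]
    simp
  · exact supp_mul (supp_mul (a5 _) (supp_inv (a5 _))) (b5 _)

theorem Homotopic.symm {f g : Spheroid k n} (h : Homotopic f g) : Homotopic g f := by
  obtain ⟨K, hK, h⟩ := h
  exact ⟨K, hK, h.symm⟩

theorem Homotopic.trans {f g h : Spheroid k n} (h1 : Homotopic f g) (h2 : Homotopic g h) :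
    Homotopic f h := by
  obtain ⟨K, hK, h1⟩ := h1
  obtain ⟨L, hL, h2⟩ := h2
  exact ⟨K ∪ L, hK.union hL, (h1.mono subset_union_left).trans (h2.mono subset_union_right)⟩

/-! ### Countability -/

theorem bound_family (f : Spheroid k n) : ∃ M : ℝ, 0 < M ∧ ∀ s x v,
    ‖v‖ ≤ M * ‖fderiv ℝ (f.fam s).map x v‖ := by
  obtain ⟨r, hr1, hr2⟩ := f.bounded
  have hc := (f.smooth.inv.continuous_fderiv).norm
  obtain ⟨C, hC⟩ := ((isCompact_closedBall (0 : EuclideanSpace ℝ (Fin k)) r).prod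
    (isCompact_closedBall (0 : E n) r)).bddAbove_image hc.continuousOn
  have hb : ∀ s x, ‖fderiv ℝ (f.fam s)⁻¹.map x‖ ≤ max C 1 := by
    intro s x
    by_cases hs : ‖s‖ ≤ r
    · by_cases hx : x ∈ closedBall (0 : E n) r
      · exact (hC ⟨(s, x), ⟨by rwa [mem_closedBall, dist_zero_right], hx⟩, rfl⟩).trans
          (le_max_left _ _)
      · rw [fderiv_off (isCompact_closedBall _ _) (supp_inv (hr2 s)) hx]
        exact ContinuousLinearMap.norm_id_le.trans (le_max_right _ _)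
    · rw [hr1 s (not_le.1 hs).le, inv_one]
      have : fderiv ℝ (1 : SympCt n).map x = ContinuousLinearMap.id ℝ (E n) := fderiv_id
      rw [this]
      exact ContinuousLinearMap.norm_id_le.trans (le_max_right _ _)
  refine ⟨max C 1, lt_max_of_lt_right one_pos, fun s x v => ?_⟩
  have h1 := (hasFDerivAt_map (f.fam s)⁻¹ ((f.fam s).map x)).comp x (hasFDerivAt_map (f.fam s) x)
  have h2 : (f.fam s)⁻¹.map ∘ (f.fam s).map = id := funext fun z => inv_map_map _ z
  rw [h2] at h1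
  have h4 : fderiv ℝ (f.fam s)⁻¹.map ((f.fam s).map x) (fderiv ℝ (f.fam s).map x v) = v :=
    DFunLike.congr_fun (h1.unique (hasFDerivAt_id x)) v
  calc ‖v‖ = ‖fderiv ℝ (f.fam s)⁻¹.map ((f.fam s).map x) (fderiv ℝ (f.fam s).map x v)‖ := by rw [h4]
    _ ≤ ‖fderiv ℝ (f.fam s)⁻¹.map ((f.fam s).map x)‖ * ‖fderiv ℝ (f.fam s).map x v‖ :=
        (fderiv ℝ (f.fam s)⁻¹.map ((f.fam s).map x)).le_opNorm _
    _ ≤ max C 1 * ‖fderiv ℝ (f.fam s).map x v‖ :=
        mul_le_mul_of_nonneg_right (hb _ _) (norm_nonneg _)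

/-- spheroids with fixed bounds -/
def SpIn (k n : ℕ) (r : ℝ) : Type := {f : Spheroid k n // (∀ s, r ≤ ‖s‖ → f.fam s = 1) ∧
  ∀ s, SupportedIn (closedBall 0 r) (f.fam s).map}

theorem close_homotopic (r : ℝ) (f : SpIn k n r) : ∃ ε > 0, ∀ g : SpIn k n r,
    (∀ s ∈ closedBall (0 : EuclideanSpace ℝ (Fin k)) r, ∀ x ∈ closedBall (0 : E n) r,
      ‖fderiv ℝ (g.1.fam s).map x - fderiv ℝ (f.1.fam s).map x‖ < ε) → Homotopic f.1 g.1 := by
  obtain ⟨f, hf1, hf2⟩ := f
  obtain ⟨M, hM, hlow⟩ := bound_family f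
  refine ⟨1 / M, by positivity, ?_⟩
  rintro ⟨g, hg1, hg2⟩ hclose
  change ∀ s ∈ closedBall (0 : EuclideanSpace ℝ (Fin k)) r, ∀ x ∈ closedBall (0 : E n) r,
    ‖fderiv ℝ (g.fam s).map x - fderiv ℝ (f.fam s).map x‖ < 1 / M at hclose
  have hcl : ∀ s x v, v ≠ 0 → ‖fderiv ℝ (g.fam s).map x v - fderiv ℝ (f.fam s).map x v‖ <
      ‖fderiv ℝ (f.fam s).map x v‖ := by
    intro s x v hv
    have hv' : 0 < ‖v‖ := norm_pos_iff.2 hv
    have h3 := hlow s x v
    have h4 : 0 < ‖fderiv ℝ (f.fam s).map x v‖ := by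
      by_contra h
      have : M * ‖fderiv ℝ (f.fam s).map x v‖ ≤ 0 :=
        mul_nonpos_of_nonneg_of_nonpos hM.le (not_lt.1 h)
      linarith
    by_cases hs : ‖s‖ ≤ r
    · by_cases hx : x ∈ closedBall (0 : E n) r
      · have h5 := hclose s (by rwa [mem_closedBall, dist_zero_right]) x hx
        calc ‖fderiv ℝ (g.fam s).map x v - fderiv ℝ (f.fam s).map x v‖
            = ‖(fderiv ℝ (g.fam s).map x - fderiv ℝ (f.fam s).map x) v‖ := rfl
          _ ≤ ‖fderiv ℝ (g.fam s).map x - fderiv ℝ (f.fam s).map x‖ * ‖v‖ :=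
              ContinuousLinearMap.le_opNorm _ _
          _ < 1 / M * ‖v‖ := mul_lt_mul_of_pos_right h5 hv'
          _ ≤ 1 / M * (M * ‖fderiv ℝ (f.fam s).map x v‖) :=
              mul_le_mul_of_nonneg_left h3 (by positivity)
          _ = ‖fderiv ℝ (f.fam s).map x v‖ := by field_simp
      · have h5 := fderiv_off (isCompact_closedBall _ _) (hf2 s) hx
        rw [fderiv_off (isCompact_closedBall _ _) (hg2 s) hx, h5, sub_self, norm_zero]
        rwa [h5] at h4
    · have hs' := (not_le.1 hs).le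
      rw [hg1 s hs', hf1 s hs', sub_self, norm_zero]
      rwa [hf1 s hs'] at h4
  obtain ⟨Θ, h1, h2, h3, h4, h5⟩ := contract_group n (fun s => g.fam s * (f.fam s)⁻¹)
    (g.smooth.mul f.smooth.inv) (fun s => noNeg_quot _ _ (never_anti (hcl s)))
  refine ⟨closedBall 0 r, isCompact_closedBall _ _, fun q => Θ q.1 q.2 * f.fam q.2, ?_, fun s => ?_,
    fun s => ?_, ⟨r, fun t s hs => ?_⟩, fun q => ?_⟩
  · exact IsSmoothFamily.mul (θ := fun q : ℝ × EuclideanSpace ℝ (Fin k) => Θ q.1 q.2) h1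
      (f.smooth.comp contDiff_snd)
  · show Θ 0 s * f.fam s = f.fam s
    rw [h2, one_mul]
  · show Θ 1 s * f.fam s = g.fam s
    rw [h3, inv_mul_cancel_right]
  · show Θ t s * f.fam s = 1
    apply SympCt.ext
    funext x
    show (Θ t s).map ((f.fam s).map x) = x
    rw [hf1 s hs]
    apply h5
    rw [hf1 s hs, hg1 s hs]
    simp
  · refine supp_mul (fun x hx => ?_) (hf2 q.2)
    apply h5
    exact supp_mul (hg2 q.2) (supp_inv (hf2 q.2)) x hx

theorem countable_SpIn (r : ℝ) : ∃ S : Set (SpIn k n r), S.Countable ∧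
    ∀ g : SpIn k n r, ∃ f ∈ S, Homotopic f.1 g.1 := by
  classical
  choose ε hε hclose using close_homotopic (k := k) (n := n) r
  let D : SpIn k n r → C(EuclideanSpace ℝ (Fin k) × E n, E n →L[ℝ] E n) := fun f =>
    ⟨_, f.1.smooth.continuous_fderiv⟩
  let τ : TopologicalSpace (SpIn k n r) := TopologicalSpace.induced D ContinuousMap.compactOpen
  have : @SecondCountableTopology (SpIn k n r) τ :=
    TopologicalSpace.secondCountableTopology_induced _ _ D
  have hD : @Continuous _ _ τ _ D := continuous_induced_dom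
  have hU : ∀ f, ∃ U : Set (SpIn k n r), @IsOpen _ τ U ∧ f ∈ U ∧
      ∀ g ∈ U, Homotopic f.1 g.1 := by
    intro f
    have h1 := (ContinuousMap.tendsto_iff_forall_isCompact_tendstoUniformlyOn
      (F := D) (f := D f) (p := @nhds _ τ f)).1 (@Continuous.tendsto _ _ τ _ D hD f) _
      ((isCompact_closedBall (0 : EuclideanSpace ℝ (Fin k)) r).prod
        (isCompact_closedBall (0 : E n) r))
    have h2 := Metric.tendstoUniformlyOn_iff.1 h1 (ε f) (hε f)
    obtain ⟨U, hU1, hU2, hU3⟩ := (@eventually_nhds_iff _ τ _ _).1 h2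
    refine ⟨U, hU2, hU3, fun g hg => hclose f g fun s hs x hx => ?_⟩
    have h3 := hU1 g hg (s, x) ⟨hs, hx⟩
    rw [dist_eq_norm, norm_sub_rev] at h3
    exact h3
  choose U hUo hUm hUc using hU
  obtain ⟨T, hT, hT2⟩ := @TopologicalSpace.isOpen_iUnion_countable _ τ _ _ U hUo
  refine ⟨T, hT, fun g => ?_⟩
  have h1 : g ∈ ⋃ i, U i := mem_iUnion.2 ⟨g, hUm g⟩
  rw [← hT2] at h1
  obtain ⟨f, hfT, hgf⟩ := mem_iUnion₂.1 h1
  exact ⟨f, hfT, hUc f g hgf⟩

/-- **Countably many classes of spheroids.** -/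
theorem countable_spheroids (k n : ℕ) : ∃ S : Set (Spheroid k n), S.Countable ∧
    ∀ g : Spheroid k n, ∃ f ∈ S, Homotopic f g := by
  choose S hS1 hS2 using fun r : ℕ => countable_SpIn (k := k) (n := n) r
  refine ⟨⋃ r, Subtype.val '' S r, countable_iUnion fun r => (hS1 r).image _, fun g => ?_⟩
  obtain ⟨r, h1, h2⟩ := g.bounded
  obtain ⟨N, hN⟩ := exists_nat_ge r
  obtain ⟨f, hf, hfg⟩ := hS2 N ⟨g, fun s hs => h1 s (hN.trans hs),
    fun s x hx => h2 s x fun h => hx (closedBall_subset_closedBall hN h)⟩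
  exact ⟨f.1, mem_iUnion.2 ⟨N, f, hf, rfl⟩, hfg⟩

end Pool.Agent.X277.Sy
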