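import Pool.Agent.X277.Sy.Fam

/-!
# Spheroids with small supports
-/

set_option autoImplicit false

open Set Filter Topology Metric Function
open scoped ContDiff NNReal

noncomputable section

namespace Pool.Agent.X277.Sy

variable {n k : ℕ}

theorem IsSmoothFamily.cj {P : Type} [NormedAddCommGroup P] [NormedSpace ℝ P] {a : P → E n}
    {s : P → ℝ} (ha : ContDiff ℝ ∞ a) (hs : ContDiff ℝ ∞ s)
    (hs0 : ∀ q, s q ≠ 0) {θ : P → SympCt n} (h : IsSmoothFamily θ) :
    IsSmoothFamily (fun q => cjG (a q) (s q) (hs0 q) (θ q)) := by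
  have h1 : ContDiff ℝ ∞ (fun p : P × E n => (s p.1)⁻¹ • (p.2 - a p.1)) :=
    ((hs.comp contDiff_fst).inv fun p => hs0 p.1).smul
      (contDiff_snd.sub (ha.comp contDiff_fst))
  exact (ha.comp contDiff_fst).add ((hs.comp contDiff_fst).smul
    (ContDiff.comp h (contDiff_fst.prodMk h1)))

theorem cjG_one (a : E n) {s : ℝ} (hs : s ≠ 0) : cjG a s hs 1 = 1 :=
  SympCt.ext (funext fun x => cj_id a hs x)

theorem cjG_supp (a : E n) {s : ℝ} (hs : s ≠ 0) {φ : SympCt n} {K : Set (E n)}
    (h : SupportedIn K φ.map) : SupportedIn (im a s K) (cjG a s hs φ).map := cj_supp a hs h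

theorem sigma_mem (t : ℝ) : Real.smoothTransition t ∈ Icc (0 : ℝ) 1 :=
  ⟨Real.smoothTransition.nonneg t, Real.smoothTransition.le_one t⟩

theorem scale_pos {s : ℝ} (hs : 0 < s) {r : ℝ} (hr : r ∈ Icc (0 : ℝ) 1) : 0 < 1 + r * (s - 1) := by
  rcases hr.1.eq_or_lt with h0 | h0
  · rw [← h0, zero_mul, add_zero]
    exact one_pos
  · have h1 : 0 < r * s := mul_pos h0 hs
    have h2 := hr.2
    have h3 : 1 + r * (s - 1) = (1 - r) + r * s := by ring
    rw [h3]
    linarith

/-- the conjugated spheroid -/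
def cjS (a : E n) (s : ℝ) (hs : s ≠ 0) (f : Spheroid k n) : Spheroid k n where
  fam u := cjG a s hs (f.fam u)
  smooth := IsSmoothFamily.cj contDiff_const contDiff_const (fun _ => hs) f.smooth
  bounded := by
    obtain ⟨r, h1, h2⟩ := f.bounded
    have hc : IsCompact (im a s (closedBall (0 : E n) r)) :=
      (isCompact_closedBall _ _).image (by fun_prop)
    obtain ⟨R, _, hR⟩ := exists_radius hc 0
    refine ⟨max r R, fun u hu => ?_, fun u x hx => cjG_supp a hs (h2 u) x fun h => hx
      (closedBall_subset_closedBall (le_max_right _ _) (hR h))⟩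
    rw [h1 u (le_trans (le_max_left _ _) hu), cjG_one]

theorem cjS_homotopic {a : E n} {s : ℝ} (hs : 0 < s) {f : Spheroid k n} {K : Set (E n)}
    (hf : ∀ u, SupportedIn K (f.fam u).map) : HomotopicIn (track a s K) f (cjS a s hs.ne' f) := by
  obtain ⟨r, h1, _⟩ := f.bounded
  have hσ : ContDiff ℝ ∞ (fun q : ℝ × EuclideanSpace ℝ (Fin k) => Real.smoothTransition q.1) :=
    Real.smoothTransition.contDiff.comp contDiff_fst
  refine ⟨fun q => cjG (Real.smoothTransition q.1 • a) (1 + Real.smoothTransition q.1 * (s - 1))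
    (scale_pos hs (sigma_mem q.1)).ne' (f.fam q.2), ?_, fun u => ?_, fun u => ?_,
    ⟨r, fun t u hu => ?_⟩, fun q => ?_⟩
  · exact IsSmoothFamily.cj (hσ.smul contDiff_const) (contDiff_const.add (hσ.mul contDiff_const))
      (fun q => (scale_pos hs (sigma_mem q.1)).ne') (f.smooth.comp contDiff_snd)
  · apply SympCt.ext
    funext x
    show cj (Real.smoothTransition 0 • a) (1 + Real.smoothTransition 0 * (s - 1)) (f.fam u).map x =
      (f.fam u).map x
    rw [Real.smoothTransition.zero, zero_smul, zero_mul, add_zero]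
    simp [Pool.Agent.X277.Sy.cj]
  · apply SympCt.ext
    funext x
    show cj (Real.smoothTransition 1 • a) (1 + Real.smoothTransition 1 * (s - 1)) (f.fam u).map x =
      cj a s (f.fam u).map x
    rw [Real.smoothTransition.one, one_smul, one_mul, add_sub_cancel]
  · show cjG (Real.smoothTransition t • a) (1 + Real.smoothTransition t * (s - 1))
      (scale_pos hs (sigma_mem t)).ne' (f.fam u) = 1
    rw [h1 u hu, cjG_one]
  · intro x hx
    exact cjG_supp _ _ (hf q.2) x fun h => hx (im_subset_track a s K (sigma_mem q.1) h)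

/-- **Theorem A'.** -/
theorem exists_small_spheroid {U : Set (E n)} (hU : IsOpen U) (hne : U.Nonempty)
    (f : Spheroid k n) : ∃ g : Spheroid k n, g.Within U ∧ Homotopic f g := by
  obtain ⟨p, hp⟩ := hne
  obtain ⟨r, _, h2⟩ := f.bounded
  obtain ⟨s, hs, hs1, L, hL, hLU, him⟩ := exists_scale (isCompact_closedBall (0 : E n) r) hU hp
  refine ⟨cjS ((1 - s) • p) s hs.ne' f, ⟨L, hL, hLU, fun u x hx => ?_⟩,
    ⟨_, track_compact _ _ (isCompact_closedBall (0 : E n) r), cjS_homotopic hs h2⟩⟩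
  exact cjG_supp _ hs.ne' (h2 u) x fun h => hx (him h)

/-- **Theorem B'.** -/
theorem homotopicWithin_of_homotopic {U : Set (E n)} (hU : IsOpen U) {p : E n} (hp : p ∈ U)
    (hstar : StarConvex ℝ p U) {f g : Spheroid k n} (hf : f.Within U)
    (hg : g.Within U) (h : Homotopic f g) : HomotopicWithin U f g := by
  obtain ⟨K, hK, F, hF, h0, h1, ⟨r, hr⟩, hs'⟩ := h
  obtain ⟨K₁, hK₁, hK₁U, hf⟩ := hf
  obtain ⟨K₂, hK₂, hK₂U, hg⟩ := hg
  obtain ⟨s, hs, hs1, L, hL, hLU, him⟩ := exists_scale hK hU hp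
  have a1 : HomotopicIn (track ((1 - s) • p) s K₁) f (cjS ((1 - s) • p) s hs.ne' f) :=
    cjS_homotopic hs hf
  have a2 : HomotopicIn (track ((1 - s) • p) s K₂) g (cjS ((1 - s) • p) s hs.ne' g) :=
    cjS_homotopic hs hg
  have a3 : HomotopicIn L (cjS ((1 - s) • p) s hs.ne' f) (cjS ((1 - s) • p) s hs.ne' g) := by
    refine ⟨fun q => cjG ((1 - s) • p) s hs.ne' (F q), IsSmoothFamily.cj contDiff_const
      contDiff_const (fun _ => hs.ne') hF, fun u => ?_, fun u => ?_, ⟨r, fun t u hu => ?_⟩,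
      fun q x hx => ?_⟩
    · show cjG ((1 - s) • p) s hs.ne' (F (0, u)) = cjG ((1 - s) • p) s hs.ne' (f.fam u)
      rw [h0]
    · show cjG ((1 - s) • p) s hs.ne' (F (1, u)) = cjG ((1 - s) • p) s hs.ne' (g.fam u)
      rw [h1]
    · show cjG ((1 - s) • p) s hs.ne' (F (t, u)) = 1
      rw [hr t u hu, cjG_one]
    · exact cjG_supp _ _ (hs' q) x fun h => hx (him h)
  refine ⟨track ((1 - s) • p) s K₁ ∪ L ∪ track ((1 - s) • p) s K₂,
    ((track_compact _ _ hK₁).union hL).union (track_compact _ _ hK₂),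
    union_subset (union_subset (track_subset hstar hs hs1 hK₁U) hLU)
      (track_subset hstar hs hs1 hK₂U), ?_⟩
  refine HomotopicIn.trans (a1.mono ?_) (HomotopicIn.trans (a3.mono ?_) (a2.symm.mono ?_))
  · exact subset_union_left.trans subset_union_left
  · exact subset_union_right.trans subset_union_left
  · exact subset_union_right

end Pool.Agent.X277.Sy
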