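import Mathlib

/-!
# Global inversion of local homeomorphisms which are the identity off a compact set
-/

set_option autoImplicit false

open Set Filter Topology Metric Function

namespace Pool.Agent.X277.Sy

/-- A locally injective open map of a connected locally compact space, equal to the identity off a
compact set, is bijective. -/
theorem bijective_of_local {X : Type*} [TopologicalSpace X] [T2Space X] [PreconnectedSpace X]
    [WeaklyLocallyCompactSpace X] [NoncompactSpace X] {f : X → X} (hc : Continuous f)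
    (ho : IsOpenMap f)
    (hl : ∀ x, ∃ U : Set X, IsOpen U ∧ x ∈ U ∧ InjOn f U) {K : Set X} (hK : IsCompact K)
    (hf : ∀ x, x ∉ K → f x = x) : Bijective f := by
  have htend : Tendsto f (cocompact X) (cocompact X) := by
    have h1 : f =ᶠ[cocompact X] id := by
      filter_upwards [hK.compl_mem_cocompact] with x hx using hf x hx
    exact (tendsto_congr' h1).2 tendsto_id
  have hproper : IsProperMap f := isProperMap_iff_tendsto_cocompact.2 ⟨hc, htend⟩
  have hclosed : IsClosedMap f := hproper.isClosedMap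
  obtain ⟨y₀, hy₀⟩ : ∃ y₀, y₀ ∉ K ∪ f '' K := by
    by_contra h
    push Not at h
    exact noncompact_univ X ((hK.union (hK.image hc)).of_isClosed_subset isClosed_univ
      fun x _ => h x)
  rw [mem_union, not_or] at hy₀
  have hsurj : Surjective f := by
    rw [← range_eq_univ]
    have : Nonempty X := ⟨y₀⟩
    exact IsClopen.eq_univ ⟨hclosed.isClosed_range, ho.isOpen_range⟩ (range_nonempty f)
  refine ⟨?_, hsurj⟩
  set S : Set X := {y | ∃! x, f x = y} with hS
  have hne : S.Nonempty := by
    refine ⟨y₀, y₀, hf y₀ hy₀.1, fun x hx => ?_⟩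
    have hx' : f x = y₀ := hx
    by_contra hne
    by_cases hxK : x ∈ K
    · exact hy₀.2 ⟨x, hxK, hx'⟩
    · rw [hf x hxK] at hx'
      exact hne hx'
  have hopen : IsOpen S := by
    rw [isOpen_iff_mem_nhds]
    rintro y ⟨x, hx, hux⟩
    obtain ⟨U, hU, hxU, hinj⟩ := hl x
    have h1 : (f '' Uᶜ)ᶜ ∈ 𝓝 y := by
      refine (hclosed _ hU.isClosed_compl).isOpen_compl.mem_nhds ?_
      rintro ⟨z, hz, hzy⟩
      rw [hux z hzy] at hz
      exact hz hxU
    have h2 : f '' U ∈ 𝓝 y := (ho U hU).mem_nhds ⟨x, hxU, hx⟩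
    filter_upwards [h1, h2] with z hz1 hz2
    obtain ⟨w, hw, rfl⟩ := hz2
    refine ⟨w, rfl, fun w' hw' => ?_⟩
    have hw'U : w' ∈ U := by
      by_contra h
      exact hz1 ⟨w', h, hw'⟩
    exact hinj hw'U hw hw'
  have hclosedS : IsClosed S := by
    rw [← isOpen_compl_iff, isOpen_iff_mem_nhds]
    intro y hy
    obtain ⟨x, hx⟩ := hsurj y
    have h1 : ∃ x', f x' = y ∧ x' ≠ x := by
      by_contra h
      push Not at h
      exact hy ⟨x, hx, h⟩
    obtain ⟨x', hx', hne'⟩ := h1
    obtain ⟨U, V, hU, hV, hxU, hxV, hUV⟩ := t2_separation hne'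
    filter_upwards [(ho U hU).mem_nhds ⟨x', hxU, hx'⟩, (ho V hV).mem_nhds ⟨x, hxV, hx⟩]
      with z hz1 hz2
    obtain ⟨a, ha, rfl⟩ := hz1
    obtain ⟨b, hb, hab⟩ := hz2
    rintro ⟨c, hc, huc⟩
    have e1 := huc a rfl
    have e2 := huc b hab
    rw [e1] at ha
    rw [e2] at hb
    exact disjoint_left.1 hUV ha hb
  have hSu : S = univ := IsClopen.eq_univ ⟨hclosedS, hopen⟩ hne
  intro a b hab
  have h1 : f b ∈ S := by rw [hSu]; exact mem_univ _
  exact h1.unique hab rfl

end Pool.Agent.X277.Sy
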